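import Mathlib

set_option autoImplicit false

namespace Pool.Agent.Results.MP_b13872_an.Monomials

open Polynomial Filter Topology Finset

/-- All complex zeros are real (the zero polynomial is allowed, as usual). -/
def RealZeros (p : ℝ[X]) : Prop := p = 0 ∨ ∀ z : ℂ, aeval z p = 0 → z.im = 0

/-- The polynomial with coefficients γ k * a k. -/
noncomputable def act (γ : ℕ → ℝ) (p : ℝ[X]) : ℝ[X] :=
  ∑ k ∈ range (p.natDegree + 1), monomial k (γ k * p.coeff k)

/-- Multiplier sequences of Polya and Schur. -/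
def IsMS (γ : ℕ → ℝ) : Prop := ∀ p : ℝ[X], RealZeros p → RealZeros (act γ p)

theorem coeff_act (γ : ℕ → ℝ) (p : ℝ[X]) (k : ℕ) : (act γ p).coeff k = γ k * p.coeff k := by
  rw [act, finsetSum_coeff]
  simp only [coeff_monomial, Finset.sum_ite_eq', mem_range]
  split_ifs with h
  · rfl
  · rw [coeff_eq_zero_of_natDegree_lt (by omega), mul_zero]

theorem rz_iff {p : ℝ[X]} : RealZeros p ↔ p.Splits := by
  constructor
  · rintro (rfl | h)
    · exact Splits.zero
    · refine Splits.of_splits_map (algebraMap ℝ ℂ) (IsAlgClosed.splits _) fun a ha => ?_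
      have := h a (by rw [← eval_map_algebraMap]; exact (mem_roots'.1 ha).2)
      exact ⟨a.re, Complex.ext rfl (by simp [this])⟩
  · intro h
    rcases eq_or_ne p 0 with rfl | h0
    · exact Or.inl rfl
    · refine Or.inr fun z hz => ?_
      obtain ⟨x, rfl⟩ := h.mem_range_of_isRoot h0 (i := algebraMap ℝ ℂ) (x := z)
        (by rwa [IsRoot, eval_map_algebraMap])
      simp

theorem ms_iff {γ : ℕ → ℝ} : IsMS γ ↔ ∀ p : ℝ[X], p.Splits → (act γ p).Splits := by
  simp only [IsMS, rz_iff]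

theorem splits_of {q : ℝ[X]} (h : ∀ z : ℂ, z.im ≠ 0 → aeval z q = 0 →
    ∀ w : ℂ, w.im ≠ 0 → aeval w q = 0) : q.Splits := by
  refine rz_iff.1 (or_iff_not_imp_right.2 fun hc => ?_)
  push Not at hc
  obtain ⟨z, h1, h2⟩ := hc
  rw [← Polynomial.map_eq_zero (algebraMap ℝ ℂ)]
  refine eq_zero_of_infinite_isRoot _ (Set.infinite_of_injective_forall_mem
    (f := fun n : ℕ => (n : ℂ) + Complex.I) (fun a b hab => by simpa using hab) fun n => ?_)
  rw [Set.mem_ofPred_eq, IsRoot, eval_map_algebraMap]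
  exact h z h2 h1 _ (by simp)

theorem euler {p : ℝ[X]} (hp : p.Splits) (a c : ℝ) (hc : 0 ≤ c ∨ c ≤ -p.natDegree) :
    ((X - C a) * derivative p + C c * p).Splits := by
  rcases eq_or_ne p 0 with rfl | h0
  · simp
  have h1 : ∀ z : ℂ, z.im ≠ 0 → aeval z p ≠ 0 := fun z hz h =>
    hz (((rz_iff.2 hp).resolve_left h0) z h)
  have h2 : ∀ z : ℂ, z.im ≠ 0 → aeval z ((X - C a) * derivative p + C c * p) =
      aeval z p * ((z - a) * ∑ r : p.roots, 1 / (z - (r : ℝ)) + c) := fun z hz => by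
    have := (hp.map (algebraMap ℝ ℂ)).eval_derivative_eq_eval_mul_sum (x := z)
      (by rw [eval_map_algebraMap]; exact h1 z hz)
    rw [derivative_map, eval_map_algebraMap, eval_map_algebraMap, hp.roots_map, Multiset.map_map,
      ← Multiset.map_univ] at this
    simp only [map_add, map_mul, map_sub, aeval_X, aeval_C, this]
    show _ = _ * (_ * (Multiset.map _ _).sum + _)
    simp only [Function.comp, Complex.coe_algebraMap]
    ring
  have hn : ∀ (z : ℂ) (r : ℝ), z.im ≠ 0 → z - r ≠ 0 := fun z r hz h =>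
    hz (by simpa using congrArg Complex.im h)
  have hcard : Fintype.card p.roots = p.natDegree := by
    rw [Multiset.card_coe, hp.natDegree_eq_card_roots]
  refine splits_of fun z hz h w hw => ?_
  rw [h2 z hz, mul_eq_zero, or_iff_right (h1 z hz)] at h
  rw [h2 w hw, mul_eq_zero]
  right
  have hu := Complex.normSq_pos.2 (hn z a hz)
  rcases hc with hc | hc
  · have h3 : ∑ r : p.roots, 1 / (z - (r : ℝ)) + c / (z - a) = 0 := by
      rw [← mul_right_inj' (hn z a hz), mul_add, mul_div_cancel₀ _ (hn z a hz), h, mul_zero]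
    have h4 : ∑ r : p.roots, 1 / Complex.normSq (z - (r : ℝ)) + c / Complex.normSq (z - a) = 0 := by
      rw [← mul_right_inj' (neg_ne_zero.2 hz), mul_zero, ← Complex.zero_im, ← h3, Complex.add_im,
        Complex.im_sum, mul_add, Finset.mul_sum]
      congr 1
      · refine Finset.sum_congr rfl fun r _ => ?_
        simp [div_eq_mul_inv]
      · simp [Complex.div_im]
        ring
    have h5 : ∀ r ∈ (univ : Finset p.roots), 0 ≤ 1 / Complex.normSq (z - (r : ℝ)) := fun r _ =>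
      one_div_nonneg.2 (Complex.normSq_nonneg _)
    obtain ⟨h6, h7⟩ := (add_eq_zero_iff_of_nonneg (Finset.sum_nonneg h5)
      (div_nonneg hc hu.le)).1 h4
    have : IsEmpty p.roots := ⟨fun r => (one_div_pos.2 (Complex.normSq_pos.2 (hn z r hz))).ne'
      ((Finset.sum_eq_zero_iff_of_nonneg h5).1 h6 r (mem_univ r))⟩
    simp [(div_eq_zero_iff.1 h7).resolve_right hu.ne']
  · have h3 : ∑ r : p.roots, ((r : ℝ) - a) * (z - a) / (z - (r : ℝ)) +
        (p.natDegree + c) * (z - a) = 0 := by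
      rw [← zero_mul (z - a), ← h, add_mul, add_mul, ← add_assoc, Finset.mul_sum, Finset.sum_mul,
        ← hcard, ← nsmul_eq_mul, ← Finset.card_univ, ← Finset.sum_const, ← Finset.sum_add_distrib]
      congr 1
      refine Finset.sum_congr rfl fun r _ => ?_
      have := hn z r hz
      field_simp
      ring
    have h4 : ∑ r : p.roots, ((r : ℝ) - a) ^ 2 / Complex.normSq (z - (r : ℝ)) +
        -(p.natDegree + c) = 0 := by
      rw [← mul_right_inj' (neg_ne_zero.2 hz), mul_zero, ← Complex.zero_im, ← h3, Complex.add_im,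
        Complex.im_sum, mul_add, Finset.mul_sum]
      congr 1
      · refine Finset.sum_congr rfl fun r _ => ?_
        simp [Complex.div_im]
        ring
      · simp
        ring
    have h5 : ∀ r ∈ (univ : Finset p.roots),
        0 ≤ ((r : ℝ) - a) ^ 2 / Complex.normSq (z - (r : ℝ)) := fun r _ =>
      div_nonneg (sq_nonneg _) (Complex.normSq_nonneg _)
    obtain ⟨h6, h7⟩ := (add_eq_zero_iff_of_nonneg (Finset.sum_nonneg h5) (by linarith)).1 h4
    have h8 : ∀ r : p.roots, (r : ℝ) = a := fun r => by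
      have := (Finset.sum_eq_zero_iff_of_nonneg h5).1 h6 r (mem_univ r)
      rwa [div_eq_zero_iff, or_iff_left (Complex.normSq_pos.2 (hn z r hz)).ne', sq_eq_zero_iff,
        sub_eq_zero] at this
    have h9 : c = -p.natDegree := by linarith
    have := hn w a hw
    simp only [h8, h9, Finset.sum_const, Finset.card_univ, hcard, nsmul_eq_mul]
    push_cast
    field_simp
    ring

theorem ms_const (c : ℝ) : IsMS fun _ => c := ms_iff.2 fun p hp => by
  have : act (fun _ => c) p = C c * p := by ext k; simp [coeff_act]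
  exact this ▸ hp.C_mul c

theorem IsMS.mul {γ δ : ℕ → ℝ} (h : IsMS γ) (h' : IsMS δ) : IsMS fun k => γ k * δ k :=
  fun p hp => by
    have : act (fun k => γ k * δ k) p = act γ (act δ p) := by ext k; simp [coeff_act, mul_assoc]
    exact this ▸ h _ (h' p hp)

theorem IsMS.pow {γ : ℕ → ℝ} (h : IsMS γ) (n : ℕ) : IsMS fun k => γ k ^ n := by
  induction n with
  | zero => simpa using ms_const 1
  | succ n ih => simpa only [pow_succ] using ih.mul h

theorem ms_geom (r : ℝ) : IsMS fun k => r ^ k := ms_iff.2 fun p hp => by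
  have : act (fun k => r ^ k) p = p.comp (C r * X) := by
    ext k
    rw [coeff_act, comp_C_mul_X_coeff, mul_comm]
  exact this ▸ hp.comp_of_degree_le_one (degree_C_mul_X_le r)

theorem ms_lin {c : ℝ} (hc : 0 ≤ c) : IsMS fun k => k + c := ms_iff.2 fun p hp => by
  have : act (fun k => k + c) p = (X - C 0) * derivative p + C c * p := by
    ext k
    rw [coeff_act, C_0, sub_zero]
    cases k <;> simp [coeff_derivative]
    ring
  exact this ▸ euler hp 0 c (Or.inl hc)

theorem ms_head (x : ℝ) : IsMS fun k => if k = 0 then x else 0 := ms_iff.2 fun p _ => by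
  have : act (fun k => if k = 0 then x else 0) p = C (x * p.coeff 0) := by
    ext k
    rw [coeff_act, coeff_C]
    split_ifs with h <;> simp [h]
  exact this ▸ Splits.C _

/-- Jensen polynomials. -/
noncomputable def J (d : ℕ) (γ : ℕ → ℝ) : ℝ[X] := act γ ((1 + X) ^ d)

theorem coeff_J (d : ℕ) (γ : ℕ → ℝ) (k : ℕ) : (J d γ).coeff k = γ k * d.choose k := by
  rw [J, coeff_act, coeff_one_add_X_pow]

theorem natDegree_J (d : ℕ) (γ : ℕ → ℝ) : (J d γ).natDegree ≤ d :=
  natDegree_le_iff_coeff_eq_zero.2 fun k hk => by simp [coeff_J, Nat.choose_eq_zero_of_lt hk]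

theorem IsMS.J {γ : ℕ → ℝ} (h : IsMS γ) (d : ℕ) : (J d γ).Splits :=
  ms_iff.1 h _ (Splits.pow (by simpa [add_comm] using Splits.X_add_C (1 : ℝ)) d)

theorem J_diff {γ : ℕ → ℝ} (h : ∀ d, (J d γ).Splits) (d : ℕ) :
    (J d fun k => γ (k + 1) - γ k).Splits := by
  have h1 := euler (h (d + 1)) (-1) (-(d + 1 : ℕ))
    (Or.inr (neg_le_neg (Nat.cast_le.2 (natDegree_J _ _))))
  have h2 : (X - C (-1)) * derivative (J (d + 1) γ) + C (-((d + 1 : ℕ) : ℝ)) * J (d + 1) γ =
      C ((d + 1 : ℕ) : ℝ) * J d fun k => γ (k + 1) - γ k := by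
    ext k
    have e1 : ((d + 1).choose (k + 1) : ℝ) * (k + 1) = (d + 1) * d.choose k := by
      exact_mod_cast (Nat.add_one_mul_choose_eq d k).symm
    rw [sub_mul, coeff_add, coeff_sub, coeff_C_mul, coeff_C_mul, coeff_C_mul, coeff_derivative,
      coeff_J, coeff_J, coeff_J]
    cases k with
    | zero => simp; ring
    | succ k =>
      have e2 : ((d + 1).choose (k + 1) : ℝ) * (k + 1) = (d + 1) * d.choose k := by
        exact_mod_cast (Nat.add_one_mul_choose_eq d k).symm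
      have e3 : ((d + 1).choose (k + 1) : ℝ) = d.choose k + d.choose (k + 1) := by
        exact_mod_cast Nat.choose_succ_succ' d k
      rw [coeff_X_mul, coeff_derivative, coeff_J]
      push_cast at e1 ⊢
      linear_combination γ (k + 1 + 1) * e1 + γ (k + 1) * e2 - γ (k + 1) * (d + 1) * e3
  rw [h2] at h1
  exact (splits_mul_iff_right (by rw [C_ne_zero]; positivity) (Splits.C _)).1 h1

theorem quad {a b c : ℝ} {p : ℝ[X]} (hp : p.Splits) (h : p = C a + C b * X + C c * X ^ 2) :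
    4 * (a * c) ≤ b ^ 2 := by
  rcases eq_or_ne c 0 with rfl | hc
  · simpa using sq_nonneg b
  · obtain ⟨x, hx⟩ := hp.exists_eval_eq_zero (fun h0 => hc (by
      simpa [h, coeff_X, coeff_C] using coeff_eq_zero_of_degree_lt (n := 2) (h0.trans_lt (by norm_num))))
    simp [h] at hx
    nlinarith [sq_nonneg (2 * c * x + b), congrArg (c * ·) hx]

theorem turan {γ : ℕ → ℝ} (h : (J 2 γ).Splits) : γ 0 * γ 2 ≤ γ 1 ^ 2 := by
  have := quad (a := γ 0) (b := 2 * γ 1) (c := γ 2) h (by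
    ext k
    rw [coeff_J]
    rcases k with _ | _ | _ | k
    · simp
    · simp
      ring
    · simp
    · rw [Nat.choose_eq_zero_of_lt (by omega)]
      simp)
  linarith

theorem IsMS.sign {γ : ℕ → ℝ} (h : IsMS γ) : 0 ≤ γ 0 * γ 2 := by
  have := quad (a := -γ 0) (b := 0) (c := γ 2) (ms_iff.1 h _
    ((Splits.X_sub_C (1 : ℝ)).mul (Splits.X_add_C 1))) (by
    ext k
    rw [coeff_act, show ((X - C 1) * (X + C 1) : ℝ[X]) = X ^ 2 - 1 by simp; ring]
    rcases k with _ | _ | _ | k <;> simp [coeff_C, coeff_one])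
  linarith

theorem head_eq {γ : ℕ → ℝ} {c : ℝ} (h : IsMS γ) (hc : c ≠ 0) (h1 : ∀ k, γ (k + 1) = c) :
    γ 0 = c := by
  have h2 : J 3 γ = C c * (1 + X) ^ 3 + C (γ 0 - c) := by
    ext k
    rw [coeff_J, coeff_add, coeff_C_mul, coeff_one_add_X_pow]
    cases k <;> simp [h1, coeff_C]
  have h3 : J 3 γ ≠ 0 := fun h0 => hc (by simpa [coeff_J, h1] using congrArg (coeff · 1) h0)
  have h4 := (rz_iff.2 (h.J 3)).resolve_left h3
  obtain ⟨w, hw⟩ := IsAlgClosed.exists_pow_nat_eq (((c - γ 0) / c : ℝ) : ℂ) three_pos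
  have hc' : (c : ℂ) ≠ 0 := by exact_mod_cast hc
  have h5 : ∀ v : ℂ, v ^ 3 = w ^ 3 → v.im = 0 := fun v hv => by
    simpa using h4 (v - 1) (by
      simp only [h2, map_add, map_mul, map_pow, aeval_C, aeval_X, map_one, add_sub_cancel, hv, hw,
        Complex.coe_algebraMap]
      push_cast
      field_simp
      ring)
  have h6 := h5 w rfl
  have h7 := h5 ((-1 + √3 * Complex.I) / 2 * w) (by
    have : ((√3 : ℝ) : ℂ) ^ 2 = 3 := by exact_mod_cast Real.sq_sqrt (by norm_num : (0 : ℝ) ≤ 3)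
    rw [mul_pow]
    have e : ((-1 + √3 * Complex.I) / 2) ^ 3 = 1 := by
      linear_combination ((√3 * Complex.I - 3) * Complex.I ^ 2 / 8) * this +
        (3 * (√3 * Complex.I - 3) / 8) * Complex.I_sq
    rw [e, one_mul])
  have h8 : w = 0 := Complex.ext (by simpa [h6] using h7) h6
  rw [h8, zero_pow three_ne_zero, eq_comm, Complex.ofReal_eq_zero, div_eq_zero_iff,
    or_iff_left hc, sub_eq_zero] at hw
  exact hw.symm

theorem prod_ineq {p : ℝ[X]} (hp : p.Splits) (h0 : ∀ x, 0 < x → p.eval x ≠ 0)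
    {a₁ a₂ b₁ b₂ x : ℝ} {N : ℕ} (ha₁ : 0 < a₁) (ha₂ : 0 < a₂) (hb₁ : 0 < b₁) (hb₂ : 0 < b₂)
    (hx : 0 < x) (ha : a₁ * a₂ = x ^ 2) (hb : b₁ * b₂ = x ^ 2)
    (hN : a₁ + a₂ - 2 * x ≤ N * (b₁ + b₂ - 2 * x)) :
    0 ≤ p.eval a₁ * p.eval a₂ * (p.eval x ^ 2) ^ N ∧ p.eval a₁ * p.eval a₂ * (p.eval x ^ 2) ^ N ≤
      p.eval x ^ 2 * (p.eval b₁ * p.eval b₂) ^ N := by
  induction hp using Submonoid.closure_induction with
  | mem q hq =>
    obtain ⟨c, rfl⟩ | ⟨c, rfl⟩ := hq
    · simp only [eval_C, ← pow_two]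
      exact ⟨by positivity, le_rfl⟩
    · simp only [eval_add, eval_X, eval_C] at h0 ⊢
      have hc : 0 ≤ c := by
        by_contra hc
        exact h0 (-c) (by linarith) (by ring)
      refine ⟨by positivity, ?_⟩
      have hB : 0 ≤ b₁ + b₂ - 2 * x := by
        by_contra h
        nlinarith [sq_nonneg (b₁ - b₂)]
      have hy : 0 < (x + c) ^ 2 := by positivity
      have h1 := one_add_mul_le_pow (a := c * (b₁ + b₂ - 2 * x) / (x + c) ^ 2)
        (le_trans (by norm_num) (div_nonneg (mul_nonneg hc hB) hy.le)) N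
      have e1 : (b₁ + c) * (b₂ + c) =
          (x + c) ^ 2 * (1 + c * (b₁ + b₂ - 2 * x) / (x + c) ^ 2) := by
        field_simp
        linear_combination hb
      have h2 : (a₁ + c) * (a₂ + c) ≤
          (x + c) ^ 2 * (1 + N * (c * (b₁ + b₂ - 2 * x) / (x + c) ^ 2)) := by
        have : (x + c) ^ 2 * (1 + N * (c * (b₁ + b₂ - 2 * x) / (x + c) ^ 2)) =
            (x + c) ^ 2 + c * (N * (b₁ + b₂ - 2 * x)) := by field_simp
        rw [this]
        nlinarith [mul_le_mul_of_nonneg_left hN hc]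
      rw [e1, mul_pow, mul_comm (((x + c) ^ 2) ^ N), ← mul_assoc]
      exact mul_le_mul_of_nonneg_right (h2.trans (mul_le_mul_of_nonneg_left h1 hy.le))
        (by positivity)
  | one => simp
  | mul q r _ _ hq hr =>
    simp only [eval_mul, ne_eq, mul_eq_zero, not_or] at h0 ⊢
    obtain ⟨h1, h2⟩ := hq fun x hx => (h0 x hx).1
    obtain ⟨h3, h4⟩ := hr fun x hx => (h0 x hx).2
    refine ⟨(mul_nonneg h1 h3).trans_eq ?_,
      (le_of_eq ?_).trans ((mul_le_mul h2 h4 h3 (h1.trans h2)).trans_eq ?_)⟩ <;>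
      simp only [mul_pow] <;> ring

theorem central (d : ℕ) : ((2 * d).choose d : ℝ) ^ 2 * (2 * d + 1) ≤ (4 ^ d) ^ 2 := by
  induction d with
  | zero => simp
  | succ d ih =>
    have h : ((d : ℝ) + 1) * (2 * (d + 1)).choose (d + 1) = 2 * (2 * d + 1) * (2 * d).choose d := by
      exact_mod_cast Nat.succ_mul_centralBinom_succ d
    have h1 : (0 : ℝ) < (d + 1) ^ 2 := by positivity
    refine le_of_mul_le_mul_left ?_ h1
    rw [← mul_assoc, ← mul_pow, h, pow_succ 4]
    push_cast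
    have h2 : (0 : ℝ) ≤ 4 * ((2 * d + 1) * (2 * d + 3)) := by positivity
    nlinarith [mul_le_mul_of_nonneg_left ih h2, sq_nonneg ((4 : ℝ) ^ d)]

theorem two_sided {γ : ℤ → ℝ} (h : ∀ m : ℤ, IsMS fun k => γ (m + k)) (h0 : ∀ j, 0 ≤ γ j)
    (hm : Monotone γ) (hp : 0 < γ 0) : γ 0 ^ 2 ≤ γ (-1) * γ 1 := by
  by_contra hc
  have ht : ∀ j, γ j * γ (j + 2) ≤ γ (j + 1) ^ 2 := fun j => by simpa using turan ((h j).J 2)
  obtain ⟨L, hL⟩ : ∃ L, γ (-1) = L * γ 0 := ⟨_, (div_mul_cancel₀ _ hp.ne').symm⟩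
  obtain ⟨R, hR⟩ : ∃ R, γ 1 = R * γ 0 := ⟨_, (div_mul_cancel₀ _ hp.ne').symm⟩
  have hL0 : 0 ≤ L := (mul_nonneg_iff_of_pos_right hp).1 (hL ▸ h0 _)
  have hR0 : 0 < R := (mul_pos_iff_of_pos_right hp).1 (hR ▸ hp.trans_le (hm zero_le_one))
  have hLR : L < 1 / R := by
    rw [lt_div_iff₀ hR0]
    rw [hL, hR] at hc
    by_contra h1
    nlinarith [mul_le_mul_of_nonneg_right (not_lt.1 h1) (sq_nonneg (γ 0))]
  have h1 : ∀ j : ℕ, γ (j + 1) ≤ R * γ j := fun j => by
    induction j with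
    | zero => simp [hR]
    | succ j ih =>
      have a := ht j
      have b : 0 < γ j := hp.trans_le (hm (Int.natCast_nonneg j))
      push_cast
      rw [add_assoc, one_add_one_eq_two]
      nlinarith [mul_le_mul_of_nonneg_left ih (h0 (j + 1))]
  have h2 : ∀ j : ℕ, γ (-(j + 1)) ≤ L * γ (-j) := fun j => by
    induction j with
    | zero => simp [hL]
    | succ j ih =>
      have a := ht (-(j + 1 + 1))
      rw [show -((j : ℤ) + 1 + 1) + 2 = -j by ring, show -((j : ℤ) + 1 + 1) + 1 = -(j + 1) by ring]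
        at a
      push_cast
      rcases (h0 (-j)).eq_or_lt with b | b
      · exact (hm (by omega)).trans (b.ge.trans (mul_nonneg hL0 (h0 _)))
      · nlinarith [mul_le_mul_of_nonneg_left ih (h0 (-(j + 1)))]
  have h3 : ∀ j : ℕ, γ j ≤ R ^ j * γ 0 := fun j => by
    induction j with
    | zero => simp
    | succ j ih =>
      rw [pow_succ', mul_assoc]
      exact (h1 j).trans (mul_le_mul_of_nonneg_left ih hR0.le)
  have h4 : ∀ j : ℕ, γ (-j) ≤ L ^ j * γ 0 := fun j => by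
    induction j with
    | zero => simp
    | succ j ih =>
      rw [pow_succ', mul_assoc]
      exact (h2 j).trans (mul_le_mul_of_nonneg_left ih hL0)
  obtain ⟨b₁, hb1, hb2⟩ := exists_between hLR
  obtain ⟨b₂, hb3, hb4⟩ := exists_between hb2
  have hb5 : 0 < b₁ := hL0.trans_lt hb1
  have hb6 : 0 < b₂ := hb5.trans hb3
  obtain ⟨θ, hθ0, hθ1, hθ2, hθ3⟩ : ∃ θ : ℝ, 0 ≤ θ ∧ θ < 1 ∧ L ≤ θ * b₁ ∧ R * b₂ ≤ θ :=
    ⟨max (L / b₁) (R * b₂), le_max_of_le_left (by positivity),
      max_lt ((div_lt_one hb5).2 hb1) (by rwa [lt_div_iff₀' hR0] at hb4),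
      (div_le_iff₀ hb5).1 (le_max_left _ _), le_max_right _ _⟩
  obtain ⟨x, hx0, hx⟩ : ∃ x : ℝ, 0 < x ∧ b₁ * b₂ = x ^ 2 :=
    ⟨√(b₁ * b₂), by positivity, (Real.sq_sqrt (by positivity)).symm⟩
  have hx1 : b₁ ≤ x := by nlinarith
  have hx2 : x ≤ b₂ := by nlinarith
  have hB : 0 < b₁ + b₂ - 2 * x := by
    by_contra h
    nlinarith [sq_pos_of_pos (sub_pos.2 hb3)]
  obtain ⟨N, hN⟩ := exists_nat_ge ((1 + x ^ 2 - 2 * x) / (b₁ + b₂ - 2 * x))
  rw [div_le_iff₀ hB] at hN
  obtain ⟨M, hM⟩ : ∃ M, M = 2 * (1 - θ)⁻¹ := ⟨_, rfl⟩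
  obtain ⟨d, hd⟩ := exists_nat_gt ((2 * M ^ 2 * (M ^ 2) ^ N) ^ 2)
  obtain ⟨B, hB'⟩ : ∃ B : ℝ, B = (2 * d).choose d := ⟨_, rfl⟩
  have hB0 : 0 < B := by rw [hB']; exact_mod_cast Nat.choose_pos (by omega)
  have he : ∀ y, (J (2 * d) fun k => γ (-d + k)).eval y =
      ∑ i ∈ range (2 * d + 1), γ (-d + i) * (2 * d).choose i * y ^ i := fun y => by
    rw [eval_eq_sum_range' (Nat.lt_succ_of_le (natDegree_J _ _))]
    simp only [coeff_J]
  have key := fun h0 => (prod_ineq ((h (-d)).J (2 * d)) h0 one_pos (pow_pos hx0 2) hb5 hb6 hx0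
    (one_mul _) hx hN).2
  generalize (J (2 * d) fun k => γ (-d + k)) = Q at he key
  have lo : ∀ y, 0 < y → γ 0 * B * y ^ d ≤ Q.eval y := fun y hy => by
    rw [he, hB']
    refine le_trans (le_of_eq ?_) (single_le_sum (fun i _ => by have := h0 (-d + i); positivity)
      (mem_range.2 (show d < 2 * d + 1 by omega)))
    simp
  have hi : ∀ y, b₁ ≤ y → y ≤ b₂ → Q.eval y ≤ γ 0 * B * y ^ d * M := fun y hy1 hy2 => by
    have hy := hb5.trans_le hy1
    have hg : ∀ n, ∑ j ∈ range n, θ ^ j ≤ (1 - θ)⁻¹ := fun n =>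
      sum_le_hasSum _ (fun _ _ => pow_nonneg hθ0 _) (hasSum_geometric_of_lt_one hθ0 hθ1)
    have hch : ∀ i, ((2 * d).choose i : ℝ) ≤ B := fun i => by
      rw [hB']
      exact_mod_cast Nat.choose_le_centralBinom i d
    rw [he, show 2 * d + 1 = d + (d + 1) by ring, sum_range_add, ← sum_range_reflect, hM,
      two_mul (1 - θ)⁻¹, mul_add]
    refine add_le_add (le_trans ?_ (mul_le_mul_of_nonneg_left (hg d) (by positivity)))
      (le_trans ?_ (mul_le_mul_of_nonneg_left (hg (d + 1)) (by positivity))) <;>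
      rw [mul_sum] <;> refine sum_le_sum fun j hj => ?_
    · obtain ⟨e, rfl⟩ : ∃ e, d = j + 1 + e := Nat.exists_eq_add_of_le (mem_range.1 hj)
      rw [show j + 1 + e - 1 - j = e by omega,
        show -((j + 1 + e : ℕ) : ℤ) + e = -(j + 1 : ℕ) by push_cast; ring]
      have a := (h4 (j + 1)).trans (mul_le_mul_of_nonneg_right (pow_le_pow_left₀ hL0
        (hθ2.trans (mul_le_mul_of_nonneg_left hy1 hθ0)) _) hp.le)
      refine (mul_le_mul_of_nonneg_right (mul_le_mul a (hch _) (by positivity) (by positivity))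
        (by positivity)).trans ?_
      have b : θ ^ (j + 1) ≤ θ ^ j := pow_le_pow_of_le_one hθ0 hθ1.le (by omega)
      refine le_trans (le_of_eq ?_) (mul_le_mul_of_nonneg_left b (by positivity))
      rw [mul_pow]
      ring
    · rw [show -(d : ℤ) + (d + j : ℕ) = j by push_cast; ring]
      refine (mul_le_mul_of_nonneg_right (mul_le_mul (h3 j) (hch _) (by positivity)
        (by positivity)) (by positivity)).trans ?_
      have b : (R * y) ^ j ≤ θ ^ j := pow_le_pow_left₀ (by positivity)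
        ((mul_le_mul_of_nonneg_left hy2 hR0.le).trans hθ3) j
      refine le_trans (le_of_eq ?_) (mul_le_mul_of_nonneg_left b (by positivity))
      rw [mul_pow]
      ring
  have one : γ 0 * 4 ^ d / 2 ≤ Q.eval 1 := by
    have a : ∑ i ∈ range (2 * d + 1), ((2 * d).choose i : ℝ) = 4 ^ d := by
      rw [show (4 : ℝ) = 2 ^ 2 by norm_num, ← pow_mul]
      exact_mod_cast Nat.sum_range_choose (2 * d)
    rw [div_le_iff₀ two_pos, mul_two, he]
    nth_rewrite 1 [← sum_flip]
    rw [← sum_add_distrib, ← a, mul_sum]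
    refine sum_le_sum fun i hi => ?_
    have hi' : i ≤ 2 * d := Nat.lt_succ_iff.1 (mem_range.1 hi)
    rw [Nat.choose_symm hi', one_pow, one_pow, mul_one, mul_one, ← add_mul]
    refine mul_le_mul_of_nonneg_right ?_ (Nat.cast_nonneg _)
    rcases le_total i d with c | c
    · exact le_add_of_le_of_nonneg (hm (by omega)) (h0 _)
    · exact le_add_of_nonneg_of_le (h0 _) (hm (by omega))
  have pos : ∀ y, 0 < y → 0 < Q.eval y := fun y hy => lt_of_lt_of_le (by positivity) (lo y hy)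
  have k1 := key fun y hy => (pos y hy).ne'
  have k2 : γ 0 * 4 ^ d / 2 * (γ 0 * B * (x ^ 2) ^ d) * ((γ 0 * B * x ^ d) ^ 2) ^ N ≤
      (γ 0 * B * x ^ d * M) ^ 2 * (γ 0 * B * b₁ ^ d * M * (γ 0 * B * b₂ ^ d * M)) ^ N := by
    have := pos 1 one_pos
    have := pos x hx0
    have := pos _ (pow_pos hx0 2)
    have := pos b₁ hb5
    have := pos b₂ hb6
    refine le_trans ?_ (k1.trans ?_)
    · gcongr
      · exact lo _ (pow_pos hx0 2)
      · exact lo _ hx0
    · gcongr
      · exact hi _ hx1 hx2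
      · exact this.le.trans' (by rfl) |>.trans' (by rfl) |> fun _ =>
          (pos b₁ hb5).le.trans (hi _ le_rfl hb3.le)
      · exact hi _ le_rfl hb3.le
      · exact hi _ hb3.le le_rfl
  have k3 : 4 ^ d ≤ 2 * M ^ 2 * (M ^ 2) ^ N * B := by
    have e : γ 0 * B * b₁ ^ d * M * (γ 0 * B * b₂ ^ d * M) = (γ 0 * B * x ^ d) ^ 2 * M ^ 2 := by
      have : b₁ ^ d * b₂ ^ d = (x ^ d) ^ 2 := by rw [← mul_pow, hx, ← pow_mul, ← pow_mul, mul_comm]
      linear_combination (γ 0 * B * M) ^ 2 * this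
    rw [e, mul_pow _ (M ^ 2), ← pow_mul x, mul_comm 2 d, pow_mul x] at k2
    have a : 0 < γ 0 ^ 2 * B * (x ^ d) ^ 2 * ((γ 0 * B * x ^ d) ^ 2) ^ N / 2 := by positivity
    refine le_of_mul_le_mul_left ((le_of_eq ?_).trans (k2.trans_eq ?_)) a <;> ring
  have k4 := pow_le_pow_left₀ (by positivity) k3 2
  have k5 := central d
  rw [← hB'] at k5
  rw [mul_pow] at k4
  nlinarith [mul_lt_mul_of_pos_right hd (pow_pos hB0 2), Nat.cast_nonneg (α := ℝ) d, pow_pos hB0 2]

theorem ms_aff {a b : ℝ} (ha : 0 ≤ a) (hb : 0 ≤ b) : IsMS fun k => a + k * b := by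
  rcases hb.eq_or_lt with rfl | hb
  · simpa using ms_const a
  · have := (ms_lin (div_nonneg ha hb.le)).mul (ms_const b)
    simp only [add_mul, div_mul_cancel₀ _ hb.ne'] at this
    simpa only [add_comm] using this

theorem diff_deriv {F G : ℝ → ℝ} {δ : ℝ} (hδ : 0 < δ) (h : ∀ y, 0 < y → HasDerivAt F (G y) y)
    (j : ℕ) : ∀ y, 0 < y → HasDerivAt ((fwdDiff δ)^[j] F) ((fwdDiff δ)^[j] G y) y := by
  induction j with
  | zero => exact h
  | succ j ih =>
    intro y hy
    rw [Function.iterate_succ_apply', Function.iterate_succ_apply']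
    exact ((ih (y + δ) (by positivity)).comp_add_const y δ).sub (ih y hy)

theorem diff_mvt {F : ℕ → ℝ → ℝ} {δ : ℝ} (hδ : 0 < δ)
    (h : ∀ i y, 0 < y → HasDerivAt (F i) (F (i + 1) y) y) (j : ℕ) : ∀ i x, 0 < x →
    ∃ ξ, x ≤ ξ ∧ ξ ≤ x + j * δ ∧ (fwdDiff δ)^[j] (F i) x = δ ^ j * F (i + j) ξ := by
  induction j with
  | zero => exact fun i x _ => ⟨x, le_rfl, by simp, by simp⟩
  | succ j ih =>
    intro i x hx
    have h1 := diff_deriv hδ (h i) j
    obtain ⟨η, ⟨h2, h3⟩, h4⟩ := exists_hasDerivAt_eq_slope _ _ (lt_add_of_pos_right x hδ)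
      (fun y hy => (h1 y (hx.trans_le hy.1)).continuousAt.continuousWithinAt)
      fun y hy => h1 y (hx.trans hy.1)
    obtain ⟨ξ, h5, h6, h7⟩ := ih (i + 1) η (hx.trans h2)
    refine ⟨ξ, by linarith, by push_cast; linarith, ?_⟩
    rw [Function.iterate_succ_apply', fwdDiff, ← add_assoc, add_right_comm, pow_succ', mul_assoc,
      ← h7, h4, add_sub_cancel_left, mul_div_cancel₀ _ hδ.ne']

theorem integral {c s : ℝ} (hc : 0 < c)
    (h : ∀ δ : ℝ, 0 < δ → IsMS fun k => c * (1 + k * δ) ^ s) : ∃ n : ℕ, s = n := by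
  by_contra hn
  push Not at hn
  obtain ⟨j, hj⟩ := exists_nat_gt s
  obtain ⟨t, ht⟩ : ∃ t, t = j - s := ⟨_, rfl⟩
  have ht0 : 0 < t := by linarith
  obtain ⟨a, ha1, ha2⟩ := exists_between (show 1 < (t + 1) / t by
    rw [one_lt_div ht0]; linarith)
  obtain ⟨U, hU1, hU⟩ : ∃ U : ℝ, 1 < U ∧ U ^ (2 * t + 2) = a :=
    ⟨a ^ (2 * t + 2)⁻¹, Real.one_lt_rpow ha1 (by positivity),
      Real.rpow_inv_rpow (by positivity) (by positivity)⟩
  obtain ⟨δ, hδ, hδU⟩ : ∃ δ : ℝ, 0 < δ ∧ 1 + (j + 2) * δ = U :=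
    ⟨(U - 1) / (j + 2), div_pos (by linarith) (by positivity), by field_simp; ring⟩
  obtain ⟨β, hβ⟩ : ∃ β : ℕ → ℝ, β = fun i => c * ∏ l ∈ range i, (s - l) := ⟨_, rfl⟩
  have hβ1 : ∀ i, β (i + 1) = β i * (s - i) := fun i => by simp [hβ, prod_range_succ, mul_assoc]
  have hβ0 : 0 < β j ^ 2 := by
    rw [hβ]
    exact sq_pos_of_ne_zero (mul_ne_zero hc.ne' (prod_ne_zero_iff.2 fun l _ => sub_ne_zero.2 (hn l)))
  have hF := fun m => diff_mvt (F := fun i y => β i * y ^ (s - i)) hδ (fun i y hy => by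
    rw [hβ1, Nat.cast_succ, sub_add_eq_sub_sub, mul_assoc]
    exact (Real.hasDerivAt_rpow_const (p := s - i) (Or.inl hy.ne')).const_mul (β i)) m 0 1 one_pos
  obtain ⟨G, hG⟩ : ∃ G : ℝ → ℝ, G = fun y => β 0 * y ^ (s - (0 : ℕ)) := ⟨_, rfl⟩
  simp only [← hG, zero_add] at hF
  have hS : ∀ m d, (J d fun k => (fwdDiff δ)^[m] G (1 + k * δ)).Splits := fun m => by
    induction m with
    | zero => simpa [hG, hβ] using (h δ hδ).J
    | succ m ih =>
      intro d
      have := J_diff ih d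
      simpa only [Function.iterate_succ_apply', fwdDiff, Nat.cast_succ, add_mul, one_mul,
        add_assoc] using this
  have hT : (fwdDiff δ)^[j] G 1 * (fwdDiff δ)^[j + 2] G 1 ≤ (fwdDiff δ)^[j + 1] G 1 ^ 2 := by
    have := turan (hS j 2)
    simp only [Function.iterate_succ_apply', fwdDiff]
    simp only [Nat.cast_zero, zero_mul, add_zero, Nat.cast_one, one_mul, Nat.cast_ofNat, two_mul,
      ← add_assoc] at this
    nlinarith
  obtain ⟨x0, a0, b0, c0⟩ := hF j
  obtain ⟨x1, a1, -, c1⟩ := hF (j + 1)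
  obtain ⟨x2, a2, b2, c2⟩ := hF (j + 2)
  rw [c0, c1, c2, hβ1, hβ1] at hT
  push_cast at hT b2
  have e0 : U ^ (-t) ≤ x0 ^ (s - j) := by
    rw [show s - j = -t by linarith]
    exact Real.rpow_le_rpow_of_nonpos (by linarith) (by nlinarith) (by linarith)
  have e2 : U ^ (-t - 2) ≤ x2 ^ (s - (j + 2)) := by
    rw [show s - (j + 2) = -t - 2 by linarith]
    exact Real.rpow_le_rpow_of_nonpos (by linarith) (by linarith) (by linarith)
  have e1 : x1 ^ (s - (j + 1)) ≤ 1 := Real.rpow_le_one_of_one_le_of_nonpos a1 (by linarith)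
  have e3 : U ^ (-t) * U ^ (-t - 2) = a⁻¹ := by
    rw [← Real.rpow_add (by linarith), ← hU, ← Real.rpow_neg (by linarith)]
    congr 1
    ring
  have e4 : a⁻¹ ≤ x0 ^ (s - j) * x2 ^ (s - (j + 2)) := by
    rw [← e3]
    exact mul_le_mul e0 e2 (by positivity) (by positivity)
  have e5 : (x1 ^ (s - (j + 1))) ^ 2 ≤ 1 := pow_le_one₀ (by positivity) e1
  have e6 : t * (t + 1) * (x0 ^ (s - j) * x2 ^ (s - (j + 2))) ≤ t ^ 2 * (x1 ^ (s - (j + 1))) ^ 2 := by
    refine le_of_mul_le_mul_left ((le_of_eq ?_).trans (hT.trans_eq ?_))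
      (show 0 < β j ^ 2 * (δ ^ (j + 1)) ^ 2 by positivity) <;> rw [ht] <;> ring
  have e7 : t < (t + 1) * a⁻¹ := by
    rw [← div_eq_mul_inv, lt_div_iff₀ (by linarith)]
    rwa [lt_div_iff₀' ht0] at ha2
  nlinarith [mul_le_mul_of_nonneg_left e4 (show 0 ≤ t * (t + 1) by positivity),
    mul_le_mul_of_nonneg_left e5 (sq_nonneg t), mul_lt_mul_of_pos_left e7 ht0]

theorem power {f : ℝ → ℝ} (hf : ∀ α, IsMS α → (∀ k, 0 ≤ α k) → IsMS fun k => f (α k))
    (h0 : ∀ x, 0 < x → 0 ≤ f x) {x₀ : ℝ} (hx₀ : 0 < x₀) (hp : 0 < f x₀) :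
    ∃ c s : ℝ, 0 < c ∧ ∀ x, 0 < x → f x = c * x ^ s := by
  have hm : ∀ x y, 0 < x → x ≤ y → f x ≤ f y := fun x y hx hxy => by
    obtain ⟨ρ, rfl⟩ : ∃ ρ, y = ρ * x := ⟨_, (div_mul_cancel₀ _ hx.ne').symm⟩
    have hρ : 1 ≤ ρ := by nlinarith
    obtain ⟨w, hw0, hw⟩ : ∃ w : ℝ, 0 ≤ w ∧ w ^ 2 = ρ ^ 2 - 1 :=
      ⟨√(ρ ^ 2 - 1), by positivity, Real.sq_sqrt (by nlinarith)⟩
    obtain ⟨c, hc⟩ : ∃ c, c = w ^ 2 + ρ * w := ⟨_, rfl⟩
    have hc0 : 0 ≤ c := by rw [hc]; positivity
    have := turan ((hf _ (((ms_aff zero_le_one hc0).mul (ms_geom (ρ / (1 + c)))).mul (ms_const x))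
      fun k => by positivity).J 2)
    have e1 : (1 + ((1 : ℕ) : ℝ) * c) * (ρ / (1 + c)) ^ 1 * x = ρ * x := by
      push_cast
      field_simp
    have e2 : (1 + ((2 : ℕ) : ℝ) * c) * (ρ / (1 + c)) ^ 2 * x = x := by
      push_cast
      field_simp
      rw [hc]
      linear_combination (-1 - w ^ 2 - 2 * ρ * w) * hw
    simp only [e1, e2, Nat.cast_zero, zero_mul, add_zero, pow_zero, one_mul] at this
    rw [← pow_two] at this
    exact (pow_le_pow_iff_left₀ (h0 x hx) (h0 _ (by positivity)) two_ne_zero).1 this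
  have h1 : ∀ x r, 0 < x → 1 ≤ r → 0 < f x → f x ^ 2 ≤ f (x / r) * f (x * r) :=
    fun x r hx hr hp => by
    have hr0 : 0 < r := by positivity
    have := two_sided (γ := fun j => f (x * r ^ j)) (fun m => by
      simpa only [zpow_add₀ hr0.ne', zpow_natCast, mul_assoc] using
        hf _ (((ms_const x).mul (ms_const (r ^ m))).mul (ms_geom r)) fun k => by positivity)
      (fun j => h0 _ (by positivity)) (fun i j hij => hm _ _ (by positivity)
        (mul_le_mul_of_nonneg_left (zpow_le_zpow_right₀ hr hij) hx.le)) (by simpa using hp)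
    simpa [div_eq_mul_inv] using this
  have h2 : ∀ x, 0 < x → 0 < f x := fun x hx => by
    rcases le_total x₀ x with c | c
    · exact hp.trans_le (hm _ _ hx₀ c)
    · have := h1 x₀ (x₀ / x) hx₀ ((one_le_div hx).2 c) hp
      rw [div_div_cancel₀ hx₀.ne'] at this
      refine (h0 x hx).lt_of_ne fun e => ?_
      rw [← e, zero_mul] at this
      exact absurd this (not_le.2 (by positivity))
  have h3 : ∀ x r, 0 < x → 1 ≤ r → f (x / r) * f (x * r) = f x ^ 2 := fun x r hx hr => by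
    refine le_antisymm ?_ (h1 x r hx hr (h2 x hx))
    have hr0 : 0 < r := by positivity
    have := turan ((hf _ ((ms_const (x / r)).mul (ms_geom r)) fun k => by positivity).J 2)
    rwa [pow_zero, pow_one, mul_one, div_mul_cancel₀ _ hr0.ne', pow_two r, ← mul_assoc,
      div_mul_cancel₀ _ hr0.ne'] at this
  obtain ⟨g, hg⟩ : ∃ g : ℝ → ℝ, g = fun u => Real.log (f (Real.exp u)) - Real.log (f 1) :=
    ⟨_, rfl⟩
  have g0 : g 0 = 0 := by simp [hg]
  have g1 : ∀ u v, g u + g v = 2 * g ((u + v) / 2) := fun u v => by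
    wlog huv : u ≤ v generalizing u v
    · rw [add_comm, add_comm u]
      exact this v u (le_of_not_ge huv)
    have := congrArg Real.log (h3 (Real.exp ((u + v) / 2)) (Real.exp ((v - u) / 2))
      (Real.exp_pos _) (Real.one_le_exp (by linarith)))
    rw [← Real.exp_sub, ← Real.exp_add, show (u + v) / 2 - (v - u) / 2 = u by ring,
      show (u + v) / 2 + (v - u) / 2 = v by ring, Real.log_pow,
      Real.log_mul (h2 _ (Real.exp_pos _)).ne' (h2 _ (Real.exp_pos _)).ne'] at this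
    simp only [hg]
    push_cast at this
    linarith
  have g2 : ∀ u v, g (u + v) = g u + g v := fun u v => by
    rw [g1, ← add_zero (g (u + v)), ← g0, g1, add_zero]
  have g3 : Monotone g := fun u v huv => by
    simp only [hg]
    exact sub_le_sub_right (Real.log_le_log (h2 _ (Real.exp_pos _))
      (hm _ _ (Real.exp_pos _) (Real.exp_le_exp.2 huv))) _
  have g4 : Continuous (AddMonoidHom.mk' g g2) :=
    AddMonoidHom.continuous_of_isBounded_nhds_zero _ (Icc_mem_nhds neg_one_lt_zero one_pos)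
      ((Metric.isBounded_Icc (g (-1)) (g 1)).subset (by
        rintro _ ⟨u, hu, rfl⟩
        exact ⟨g3 hu.1, g3 hu.2⟩))
  refine ⟨f 1, g 1, h2 1 one_pos, fun x hx => ?_⟩
  have g5 : g (Real.log x • 1) = Real.log x • g 1 := map_real_smul _ g4 (Real.log x) (1 : ℝ)
  rw [smul_eq_mul, smul_eq_mul, mul_one] at g5
  rw [Real.rpow_def_of_pos hx, ← g5, hg]
  simp only [Real.exp_log hx]
  rw [Real.exp_sub, Real.exp_log (h2 x hx), Real.exp_log (h2 1 one_pos),
    mul_div_cancel₀ _ (h2 1 one_pos).ne']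

theorem one_var {f : ℝ → ℝ} (hf : ∀ α, IsMS α → (∀ k, 0 ≤ α k) → IsMS fun k => f (α k)) :
    ∃ (c : ℝ) (n : ℕ), ∀ x, 0 ≤ x → f x = c * x ^ n := by
  by_cases h0 : f 0 = 0
  swap
  · refine ⟨f 0, 0, fun x hx => ?_⟩
    simpa using head_eq (hf _ (ms_head x) fun k => by split_ifs <;> simp [hx]) h0 fun k => by simp
  by_cases h1 : ∀ x, 0 < x → f x = 0
  · exact ⟨0, 0, fun x hx => by rcases hx.eq_or_lt with rfl | hx <;> simp [*]⟩
  push Not at h1
  obtain ⟨x₀, hx₀, hp⟩ := h1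
  wlog hp' : 0 < f x₀ generalizing f
  · obtain ⟨c, n, h⟩ := this (f := fun x => -1 * f x)
      (fun α h h' => (ms_const _).mul (hf α h h')) (by simp [h0]) (by simpa using hp)
      (by simpa using (not_lt.1 hp').lt_of_ne hp)
    exact ⟨-c, n, fun x hx => by linarith [h x hx]⟩
  obtain ⟨c, s, hc, h⟩ := power hf (fun x hx => by
    have := (hf _ ((ms_const x₀).mul (ms_geom √(x / x₀))) fun k => by positivity).sign
    rw [pow_zero, mul_one, Real.sq_sqrt (by positivity), mul_div_cancel₀ _ hx₀.ne'] at this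
    exact (mul_nonneg_iff_of_pos_left hp').1 this) hx₀ hp'
  obtain ⟨n, rfl⟩ := integral (s := s) hc fun δ hδ => by
    have := hf _ (ms_aff zero_le_one hδ.le) fun k => by positivity
    simpa only [fun k : ℕ => h (1 + k * δ) (by positivity)] using this
  refine ⟨c, n, fun x hx => ?_⟩
  rcases hx.eq_or_lt with rfl | hx
  · cases n with
    | zero =>
      simpa using head_eq (hf _ (ms_lin le_rfl) fun k => by positivity) hc.ne' fun k => by
        simpa using h (((k + 1 : ℕ) : ℝ) + 0) (by positivity)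
    | succ n => simp [h0]
  · rw [h x hx, Real.rpow_natCast]

/-- A function preserves pairs of multiplier sequences with non-negative terms exactly when it is
a monomial on the closed quadrant. -/
theorem result (Ψ : ℝ → ℝ → ℝ) :
    (∀ α β : ℕ → ℝ, IsMS α → IsMS β → (∀ k, 0 ≤ α k) → (∀ k, 0 ≤ β k) →
      IsMS fun k => Ψ (α k) (β k)) ↔
    ∃ (c : ℝ) (p q : ℕ), ∀ x y, 0 ≤ x → 0 ≤ y → Ψ x y = c * x ^ p * y ^ q := by
  constructor
  · intro h
    have h1 : ∀ y, 0 ≤ y → ∃ (c : ℝ) (n : ℕ), ∀ x, 0 ≤ x → Ψ x y = c * x ^ n := fun y hy =>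
      one_var fun α a b => h α _ a (ms_const y) b fun _ => hy
    have h2 : ∀ x, 0 ≤ x → ∃ (c : ℝ) (n : ℕ), ∀ y, 0 ≤ y → Ψ x y = c * y ^ n := fun x hx =>
      one_var fun α a b => h _ α (ms_const x) a (fun _ => hx) b
    have key : ∀ (a b : ℝ) (m n : ℕ), a * 1 ^ m = b * 1 ^ n → a * 2 ^ m = b * 2 ^ n →
        ∀ z : ℝ, a * z ^ m = b * z ^ n := fun a b m n e1 e2 z => by
      rw [one_pow, one_pow, mul_one, mul_one] at e1
      subst e1
      rcases eq_or_ne a 0 with rfl | ha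
      · simp
      · rw [pow_right_injective₀ two_pos (by norm_num) (mul_left_cancel₀ ha e2)]
    obtain ⟨c, q, hq⟩ := h2 1 zero_le_one
    obtain ⟨d, r, hr⟩ := h2 2 zero_le_two
    obtain ⟨e, p, hp⟩ := h1 1 zero_le_one
    obtain ⟨u, m, hm⟩ := h1 3 (by norm_num)
    have e1 : e = c := by simpa using (hp 1 zero_le_one).symm.trans (hq 1 zero_le_one)
    have e2 : u = c * 3 ^ q := by simpa using (hm 1 zero_le_one).symm.trans (hq 3 (by norm_num))
    have e3 : d = c * 2 ^ p := by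
      simpa [e1] using (hr 1 zero_le_one).symm.trans (hp 2 zero_le_two)
    have e4 := (hr 3 (by norm_num)).symm.trans (hm 2 zero_le_two)
    have e5 : ∀ y, 0 ≤ y → Ψ 2 y = c * y ^ q * 2 ^ p := fun y hy => by
      rw [hr y hy, e3]
      rcases eq_or_ne c 0 with rfl | hc
      · simp
      · rw [e2, e3, mul_assoc, mul_assoc] at e4
        have e6 : 2 ^ p * 3 ^ r = 3 ^ q * 2 ^ m := by exact_mod_cast mul_left_cancel₀ hc e4
        have e7 := congrArg (Nat.factorization · 3) e6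
        simp [Nat.factorization_mul, Nat.prime_two.factorization, Nat.prime_three.factorization] at e7
        rw [e7, mul_right_comm]
    refine ⟨c, p, q, fun x y hx hy => ?_⟩
    obtain ⟨v, n, hn⟩ := h1 y hy
    rw [hn x hx, mul_right_comm]
    exact key _ _ _ _ (by rw [← hn 1 zero_le_one, hq y hy, one_pow, mul_one])
      (by rw [← hn 2 zero_le_two, e5 y hy]) x
  · rintro ⟨c, p, q, h⟩ α β ha hb ha' hb'
    simpa only [fun k => h _ _ (ha' k) (hb' k)] using ((ms_const c).mul (ha.pow p)).mul (hb.pow q)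

end Pool.Agent.Results.MP_b13872_an.Monomials
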